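import Pool.Agent.Lib_MP_b52a92_nt.Main

set_option autoImplicit false

/-! MP_b52a92_nt, question Q1, in full: for which quadruples `(n, n', τ, τ')` with `τ' > τ ≥ 1` is the
intersection of `W*_n(τ)` and `W*_{n'}(τ')` non-empty. -/

namespace Pool.Agent.Results.MP_b52a92_nt.JointOrders

open Polynomial

/-- naive height of an integer polynomial: the largest absolute value of its coefficients -/
def polyHeight (P : ℤ[X]) : ℕ := P.support.sup fun i => (P.coeff i).natAbs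

/-- `K n σ` is the set of real `ξ` such that `|ξ - α| < H(α)^(-σ (n + 1))` for infinitely many real
algebraic numbers `α` of degree at most `n`. An irreducible integer polynomial `P` that vanishes at
`α` is, up to sign, the minimal polynomial of `α` over the integers with coprime coefficients, so its
degree is the degree of `α` and its height is the height of `α`. -/
def K (n : ℕ) (σ : ℝ) : Set ℝ :=
  {ξ | {α : ℝ | ∃ P : ℤ[X], Irreducible P ∧ P.natDegree ≤ n ∧ aeval α P = 0 ∧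
    |ξ - α| < (polyHeight P : ℝ) ^ (-(σ * ((n : ℝ) + 1)))}.Infinite}

/-- `W n τ` is the set of real `ξ` of exact order `τ` in degree at most `n`: the least upper bound of
all `σ ≥ 1` with `ξ ∈ K n σ` is `τ`. -/
def W (n : ℕ) (τ : ℝ) : Set ℝ := {ξ | IsLUB {σ : ℝ | 1 ≤ σ ∧ ξ ∈ K n σ} τ}

theorem mem_K_iff (n : ℕ) (σ ξ : ℝ) : ξ ∈ K n σ ↔ (JS.Near n ξ (σ * ((n : ℝ) + 1))).Infinite :=
  Iff.rfl

theorem near_mono (n n' : ℕ) (h : n ≤ n') (ξ E : ℝ) : JS.Near n ξ E ⊆ JS.Near n' ξ E := by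
  rintro α ⟨P, hP, hdeg, hα, hlt⟩
  exact ⟨P, hP, hdeg.trans h, hα, hlt⟩

theorem mem_W (n : ℕ) (τ ξ E : ℝ) (hτ : 1 ≤ τ) (hE : E = τ * ((n : ℝ) + 1))
    (h1 : (JS.Near n ξ E).Infinite)
    (h2 : ∀ δ : ℝ, 0 < δ → (JS.Near n ξ (E + δ)).Finite) : ξ ∈ W n τ := by
  have hn : (0 : ℝ) < (n : ℝ) + 1 := by positivity
  refine IsGreatest.isLUB ⟨⟨hτ, ?_⟩, ?_⟩
  · rw [mem_K_iff, ← hE]; exact h1
  · rintro σ ⟨_, hσ⟩
    by_contra hcon
    push Not at hcon
    rw [mem_K_iff] at hσ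
    apply hσ
    have h3 := h2 (σ * ((n : ℝ) + 1) - E) (by rw [hE]; nlinarith)
    rw [show E + (σ * ((n : ℝ) + 1) - E) = σ * ((n : ℝ) + 1) by ring] at h3
    exact h3

/-- Full answer to Q1. -/
theorem result (n n' : ℕ) (hn : 1 ≤ n) (hn' : 1 ≤ n') (hne : n ≠ n') (τ τ' : ℝ) (hτ : 1 ≤ τ)
    (hττ' : τ < τ') :
    (W n τ ∩ W n' τ').Nonempty ↔ (n < n' ∨ τ' * ((n' : ℝ) + 1) ≤ τ * ((n : ℝ) + 1)) := by
  have hnpos : (0 : ℝ) < (n : ℝ) + 1 := by positivity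
  have hnpos' : (0 : ℝ) < (n' : ℝ) + 1 := by positivity
  constructor
  · rintro ⟨ξ, hξ, hξ'⟩
    by_contra hcon
    push Not at hcon
    obtain ⟨hle, hlt⟩ := hcon
    have h1 : τ * ((n : ℝ) + 1) / ((n' : ℝ) + 1) < τ' := by
      rw [div_lt_iff₀ hnpos']; exact hlt
    obtain ⟨σ, ⟨_, hσK⟩, hσ1, _⟩ := hξ'.exists_between h1
    rw [div_lt_iff₀ hnpos'] at hσ1
    have h2 : ξ ∈ K n (σ * ((n' : ℝ) + 1) / ((n : ℝ) + 1)) := by
      rw [mem_K_iff, div_mul_cancel₀ _ hnpos.ne']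
      rw [mem_K_iff] at hσK
      exact hσK.mono (near_mono n' n hle ξ _)
    have h3 : τ < σ * ((n' : ℝ) + 1) / ((n : ℝ) + 1) := by
      rw [lt_div_iff₀ hnpos]; exact hσ1
    exact absurd (hξ.1 ⟨hτ.trans h3.le, h2⟩) (not_le.2 h3)
  · intro h
    rcases lt_or_gt_of_ne hne with hlt | hgt
    · obtain ⟨ξ, h1, h2, h3, h4⟩ := JS.exists_xi n n' hn hlt (τ * ((n : ℝ) + 1))
        (τ' * ((n' : ℝ) + 1)) (by nlinarith) (by nlinarith)
        (by
          have : (n : ℝ) < n' := by exact_mod_cast hlt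
          nlinarith)
      exact ⟨ξ, mem_W n τ ξ _ hτ rfl h1 h3, mem_W n' τ' ξ _ (hτ.trans hττ'.le) rfl h2 h4⟩
    · have h' : τ' * ((n' : ℝ) + 1) ≤ τ * ((n : ℝ) + 1) := by
        rcases h with h | h
        · omega
        · exact h
      obtain ⟨ξ, h1, h2, h3, h4⟩ := JS.exists_xi n' n hn' hgt (τ' * ((n' : ℝ) + 1))
        (τ * ((n : ℝ) + 1)) (by nlinarith) (by nlinarith) h'
      exact ⟨ξ, mem_W n τ ξ _ hτ rfl h2 h4, mem_W n' τ' ξ _ (hτ.trans hττ'.le) rfl h1 h3⟩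

end Pool.Agent.Results.MP_b52a92_nt.JointOrders
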